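import Pool.Agent.TH84.SF.Spec

/-!
# (K) compactness
-/

set_option autoImplicit false

namespace Pool.Agent.T9h64.SF

open Pool.Agent.TH84.SF Set

theorem sK : S_K := by
  intro G A _ _ _ _ X hX hinv τ hτ heq hinj hsurj
  classical
  have : CompactSpace X := isCompact_iff_compactSpace.mp hX.isCompact
  obtain ⟨xs, hxs⟩ : ∃ xs : X, ∀ x : X, τ x ≠ xs := by
    by_contra hcon
    apply hsurj
    intro b
    by_contra hb
    exact hcon ⟨b, fun x hx => hb ⟨x, hx⟩⟩
  have hev : ∀ g : G, Continuous fun x : X => x.1 g := fun g =>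
    (continuous_apply g).comp continuous_subtype_val
  have hτev : ∀ g : G, Continuous fun x : X => (τ x).1 g := fun g => (hev g).comp hτ
  have htr : ∀ g : G, ∀ x ∈ X, tr g x ∈ X := by
    intro g x hx
    have h := hinv g⁻¹ x hx
    simp only [inv_inv] at h
    exact h
  let r : (G → A) → A := fun x => if hx : x ∈ X then (τ ⟨x, hx⟩).1 1 else x 1
  have hr : ∀ x : X, r x.1 = (τ x).1 1 := by
    intro x
    simp only [r, dif_pos x.2]
  have hrt : ∀ (g : G) (x : X), r (tr g x.1) = (τ x).1 g := by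
    intro g x
    have h1 := hr ⟨tr g x.1, htr g x.1 x.2⟩
    have h2 := heq g⁻¹ x ⟨tr g x.1, htr g x.1 x.2⟩ (fun h => by simp [tr]) 1
    simp only [inv_inv, mul_one] at h2
    rw [← h2]
    exact h1
  have hne : ∀ (f₁ f₂ : X × X → A), Continuous f₁ → Continuous f₂ →
      IsCompact {p : X × X | f₁ p ≠ f₂ p} := by
    intro f₁ f₂ h₁ h₂
    apply IsClosed.isCompact
    have h3 : Continuous fun p => (f₁ p, f₂ p) := h₁.prodMk h₂
    exact (isClosed_discrete {q : A × A | q.1 ≠ q.2}).preimage h3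
  have hfst : ∀ g : G, Continuous fun p : X × X => p.1.1 g := fun g => (hev g).comp continuous_fst
  have hsnd : ∀ g : G, Continuous fun p : X × X => p.2.1 g := fun g => (hev g).comp continuous_snd
  have hfst' : ∀ g : G, Continuous fun p : X × X => (τ p.1).1 g := fun g =>
    (hτev g).comp continuous_fst
  have hsnd' : ∀ g : G, Continuous fun p : X × X => (τ p.2).1 g := fun g =>
    (hτev g).comp continuous_snd
  -- the window of `r`
  obtain ⟨M, hM⟩ := (hne _ _ (hfst' 1) (hsnd' 1)).elim_finite_subfamily_closed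
    (fun g : G => {p : X × X | p.1.1 g = p.2.1 g}) (fun g => isClosed_eq (hfst g) (hsnd g)) (by
      rw [Set.eq_empty_iff_forall_notMem]
      rintro ⟨x, y⟩ ⟨h1, h2⟩
      rw [Set.mem_iInter] at h2
      apply h1
      have : x = y := Subtype.ext (funext h2)
      simp [this])
  -- the window of the inverse
  obtain ⟨M', hM'⟩ := (hne _ _ (hfst 1) (hsnd 1)).elim_finite_subfamily_closed
    (fun g : G => {p : X × X | (τ p.1).1 g = (τ p.2).1 g})
    (fun g => isClosed_eq (hfst' g) (hsnd' g)) (by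
      rw [Set.eq_empty_iff_forall_notMem]
      rintro ⟨x, y⟩ ⟨h1, h2⟩
      rw [Set.mem_iInter] at h2
      apply h1
      have : x = y := hinj (Subtype.ext (funext h2))
      simp [this])
  -- the pattern which is missed
  obtain ⟨B, hB⟩ := (isCompact_univ : IsCompact (univ : Set X)).elim_finite_subfamily_closed
    (fun g : G => {x : X | (τ x).1 g = xs.1 g})
    (fun g => isClosed_eq (hτev g) continuous_const) (by
      rw [Set.eq_empty_iff_forall_notMem]
      rintro x ⟨-, h2⟩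
      rw [Set.mem_iInter] at h2
      exact hxs x (Subtype.ext (funext h2)))
  rw [Set.eq_empty_iff_forall_notMem] at hM hM' hB
  refine ⟨M, M', B, r, xs.1, ⟨htr, ?_, ?_, ?_, xs.2, ?_⟩⟩
  · intro x hx y hy h
    by_contra hc
    apply hM (⟨x, hx⟩, ⟨y, hy⟩)
    refine ⟨?_, ?_⟩
    · show (τ ⟨x, hx⟩).1 1 ≠ (τ ⟨y, hy⟩).1 1
      rw [← hr ⟨x, hx⟩, ← hr ⟨y, hy⟩]
      exact hc
    · simp only [Set.mem_iInter]
      intro g hg
      exact h g hg
  · intro x hx
    have h1 : (fun g => r (tr g x)) = (τ ⟨x, hx⟩).1 := by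
      funext g
      exact hrt g ⟨x, hx⟩
    rw [h1]
    exact (τ ⟨x, hx⟩).2
  · intro x hx y hy h
    by_contra hc
    apply hM' (⟨x, hx⟩, ⟨y, hy⟩)
    refine ⟨hc, ?_⟩
    simp only [Set.mem_iInter]
    intro g hg
    show (τ ⟨x, hx⟩).1 g = (τ ⟨y, hy⟩).1 g
    rw [← hrt g ⟨x, hx⟩, ← hrt g ⟨y, hy⟩]
    exact h g hg
  · intro x hx
    by_contra hc
    push Not at hc
    apply hB ⟨x, hx⟩
    refine ⟨Set.mem_univ _, ?_⟩
    simp only [Set.mem_iInter]
    intro g hg
    show (τ ⟨x, hx⟩).1 g = xs.1 g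
    rw [← hrt g ⟨x, hx⟩]
    exact hc g hg

end Pool.Agent.T9h64.SF
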